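import Pool.Agent.Lib.MP_06c549_co.T6H.All13

/-!
# MP_06c549_co: `(4 n - 2) / 13` vertex guards for orthogonal polygons with holes

Every orthogonal polygon with `n` vertices, `h₄` rectangular holes, `h₆` holes with six vertices and `h₈` holes with at
least eight vertices is guarded by `⌊(7 n + 4 h₄ + 6 h₆ + 8 h₈) / 26⌋` of its vertices. This number is at most
`(4 n - 2) / 13`. The statement uses the definitions of `Pool.Agent.Lib.MP_06c549_co.Poly`.
-/

namespace Pool.Agent.Results.MP_06c549_co.FourThirteenths

open Pool.Agent.Lib.MP06c549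

/-- For every orthogonal polygon with holes `P` with `n` vertices, `h₄` rectangular holes, `h₆` holes with six vertices
and `h₈` holes with at least eight vertices, there is a set of at most `⌊(7 n + 4 h₄ + 6 h₆ + 8 h₈) / 26⌋` vertices of
`P` such that every point of `P` is seen by a point of the set. -/
theorem result : ∀ P : HPoly, P.IsPoly → ∃ G : Finset (ℝ × ℝ),
    (G : Set (ℝ × ℝ)) ⊆ P.vertices ∧
    G.card ≤ (7 * P.n + 4 * (Finset.univ.filter fun i => (P.hole i).k = 2).card +
      6 * (Finset.univ.filter fun i => (P.hole i).k = 3).card +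
      8 * (Finset.univ.filter fun i => (P.hole i).k ≠ 2 ∧ (P.hole i).k ≠ 3).card) / 26 ∧
    P.Guards G :=
  T6H.all13

end Pool.Agent.Results.MP_06c549_co.FourThirteenths
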