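import Pool.Agent.Lib.MP_06c549_co.Z.All

/-!
# MP_06c549_co: Shermer's bound for vertex guards of orthogonal polygons with holes

Every orthogonal polygon with `n` vertices and `h` holes is guarded by `⌊(n + h) / 4⌋` of its vertices.
The statement uses the definitions of `Pool.Agent.Lib.MP_06c549_co.Poly`.
-/

namespace Pool.Agent.Results.MP_06c549_co.ShermerBound

open Pool.Agent.Lib.MP06c549

/-- For every orthogonal polygon with holes `P` with `n` vertices (outer boundary and holes counted)
and `h` holes there is a set of at most `⌊(n + h) / 4⌋` vertices of `P` such that every point of `P` is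
seen by a point of the set. -/
theorem result : ∀ P : HPoly, P.IsPoly → ∃ G : Finset (ℝ × ℝ),
    (G : Set (ℝ × ℝ)) ⊆ P.vertices ∧ G.card ≤ (P.n + P.h) / 4 ∧ P.Guards G :=
  Z.shermerBound

end Pool.Agent.Results.MP_06c549_co.ShermerBound
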